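import Pool.Agent.L0h69.Canc.Upper
import Pool.Agent.L0h69.Canc.Foreign

set_option autoImplicit false

/-!
# Circuits for matrix multiplication need many cancellations

Circuits (`Circuit`, `Circuit.poly`, `Circuit.size`, `Circuit.nonscalarCount`) are defined in
`Pool.Agent.H522R2.Circuit`; all other definitions are in `Pool.Agent.L0h69.Canc.Defs`.

A monomial *cancels* at a gate if it occurs in the formal sum (product) of the two polynomials which
enter the gate but not in the polynomial which the gate computes; `cancelCount C` is the number of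
gates of the circuit `C` at which a monomial cancels.

* Part 1 (every field): a circuit which computes the set `Ω` of entries of the product of a generic
  `m × n` matrix and a generic `n × p` matrix has at least `n (|Ω| - t)` nonscalar products, where
  `t ≤ cancelCount C` is the number of entries in `Ω` which are touched by a cancellation. So with
  at most `(1 - ε) m²` cancelling gates the product of two `m × m` matrices takes `ε m³` products.
* Part 2 (ordered fields, for instance `ℚ` and `ℝ`): this is sharp, for every number `s ≤ m p` of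
  cancelling gates; every circuit for the product can be changed into one which has at most `s`
  cancelling gates and at most `6 size + 2 s + 2 n (m p - s)` gates. In particular `m²` cancelling
  gates are enough for an optimal circuit (up to a factor 8) for `m × m` matrices.
* Part 3 (every field): the number of the monomials which have to cancel. If `N` is the number of
  nonscalar products and `X` is the number of pairs of an entry and a product `a_{i'k} b_{k'j'}`
  which occurs formally in the cone of this entry but is not a monomial of it, then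
  `2 (n |Ω|)³ ≤ N (2 n |Ω| + X)²`.
* Part 4: so, if `X ≤ K m ^ (3 + κ)` for `m × m` matrices, then there are at least
  `(2 / (2 + K)²) (m²) ^ (3 / 2 - κ)` nonscalar products, which is superlinear in `m²` for each
  fixed `κ < 1 / 2`.
-/

namespace Pool.Agent.Results.MP_e72dc0_lc.Cancellations

open Finset Pool.Agent.H522R2 Pool.Agent.H522R2.Circuit Pool.Agent.L0h69.Canc

theorem power_form {m : ℕ} (hm : 0 < m) (N X : ℕ) (K κ : ℝ) (hK : 0 ≤ K) (hκ : 0 ≤ κ)
    (h : 2 * (m * (m * m)) ^ 3 ≤ N * (2 * (m * (m * m)) + X) ^ 2)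
    (hX : (X : ℝ) ≤ K * (m : ℝ) ^ (3 + κ)) :
    2 / (2 + K) ^ 2 * ((m : ℝ) ^ 2) ^ (3 / 2 - κ) ≤ N := by
  have hm1 : (1 : ℝ) ≤ m := by exact_mod_cast hm
  have hm' : (0 : ℝ) < m := by linarith
  have h0 : 2 * (((m : ℝ) * (m * m)) ^ 3) ≤ N * (2 * ((m : ℝ) * (m * m)) + X) ^ 2 := by
    exact_mod_cast h
  have h1 : (m : ℝ) * (m * m) ≤ (m : ℝ) ^ (3 + κ) := by
    have h2 : (m : ℝ) ^ (3 : ℝ) ≤ (m : ℝ) ^ (3 + κ) :=
      Real.rpow_le_rpow_of_exponent_le hm1 (by linarith)
    calc (m : ℝ) * (m * m) = (m : ℝ) ^ (3 : ℝ) := by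
          rw [show (3 : ℝ) = ((3 : ℕ) : ℝ) by norm_num, Real.rpow_natCast]
          ring
      _ ≤ _ := h2
  have h2 : 2 * ((m : ℝ) * (m * m)) + X ≤ (2 + K) * (m : ℝ) ^ (3 + κ) := by linarith
  have h3 : (2 * ((m : ℝ) * (m * m)) + X) ^ 2 ≤ ((2 + K) * (m : ℝ) ^ (3 + κ)) ^ 2 :=
    pow_le_pow_left₀ (by positivity) h2 2
  have h4 : 2 * (((m : ℝ) * (m * m)) ^ 3) ≤ N * ((2 + K) * (m : ℝ) ^ (3 + κ)) ^ 2 :=
    h0.trans (mul_le_mul_of_nonneg_left h3 (Nat.cast_nonneg _))
  have h5 : ((m : ℝ) * (m * m)) ^ 3 = ((m : ℝ) ^ 2) ^ (3 / 2 - κ) * (m : ℝ) ^ (6 + 2 * κ) := by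
    rw [show ((m : ℝ) * (m * m)) ^ 3 = (m : ℝ) ^ (9 : ℕ) by ring,
      ← Real.rpow_natCast (m : ℝ) 9, ← Real.rpow_natCast (m : ℝ) 2, ← Real.rpow_mul hm'.le,
      ← Real.rpow_add hm']
    congr 1
    push_cast
    ring
  have h6 : ((2 + K) * (m : ℝ) ^ (3 + κ)) ^ 2 = (2 + K) ^ 2 * (m : ℝ) ^ (6 + 2 * κ) := by
    rw [mul_pow, ← Real.rpow_natCast ((m : ℝ) ^ (3 + κ)) 2, ← Real.rpow_mul hm'.le]
    congr 2
    push_cast
    ring
  rw [h5, h6] at h4
  have h7 : 0 < (m : ℝ) ^ (6 + 2 * κ) := Real.rpow_pos_of_pos hm' _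
  have h8 : 2 * ((m : ℝ) ^ 2) ^ (3 / 2 - κ) ≤ N * (2 + K) ^ 2 := by
    refine le_of_mul_le_mul_right ?_ h7
    calc _ = 2 * (((m : ℝ) ^ 2) ^ (3 / 2 - κ) * (m : ℝ) ^ (6 + 2 * κ)) := by ring
      _ ≤ _ := h4
      _ = _ := by ring
  rw [div_mul_eq_mul_div, div_le_iff₀ (by positivity)]
  exact h8

theorem result.{u} :
    -- Part 1: few cancelling gates, every field
    (∀ (F : Type u) [Field F] (m n p : ℕ) (C : Circuit F (Var m n p)) (Ω : Finset (Fin m × Fin p)),
      (∀ z ∈ Ω, ∃ g, C.poly g = entry F z) →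
      n * Ω.card ≤ C.nonscalarCount + n * Nat.card {z // z ∈ Ω ∧ Touched C z} ∧
        Nat.card {z // z ∈ Ω ∧ Touched C z} ≤ cancelCount C) ∧
    -- Part 2: the bound is sharp for every number of cancelling gates
    (∀ (F : Type u) [Field F] [LinearOrder F] [IsStrictOrderedRing F] (m n p : ℕ)
      (C : Circuit F (Var m n p)), (∀ z, ∃ g, C.poly g = entry F z) → ∀ s ≤ m * p,
      ∃ C' : Circuit F (Var m n p), (∀ z, ∃ g, C'.poly g = entry F z) ∧ cancelCount C' ≤ s ∧
        C'.size ≤ 6 * C.size + 2 * s + 2 * n * (m * p - s)) ∧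
    -- Part 3: the number of monomials which have to cancel
    (∀ (F : Type u) [Field F] (m n p : ℕ) (C : Circuit F (Var m n p)) (Ω : Finset (Fin m × Fin p))
      (out : Fin m × Fin p → Fin C.nodes), (∀ z ∈ Ω, C.poly (out z) = entry F z) →
      (n * Ω.card) ^ 3 ≤ 2 * C.nonscalarCount * sameCount C Ω out * otherCount C Ω out ∧
        2 * (n * Ω.card) ^ 3 ≤ C.nonscalarCount * (2 * (n * Ω.card) + foreignCount C Ω out) ^ 2) ∧
    -- Part 4: square matrices, in terms of exponents
    (∀ (F : Type u) [Field F] (m : ℕ) (C : Circuit F (Var m m m))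
      (out : Fin m × Fin m → Fin C.nodes) (K κ : ℝ), 0 < m → 0 ≤ K → 0 ≤ κ →
      (∀ z, C.poly (out z) = entry F z) →
      (foreignCount C univ out : ℝ) ≤ K * (m : ℝ) ^ (3 + κ) →
      2 / (2 + K) ^ 2 * ((m : ℝ) ^ 2) ^ (3 / 2 - κ) ≤ C.nonscalarCount ∧
        C.nonscalarCount ≤ C.size) := by
  refine ⟨?_, ?_, ?_, ?_⟩
  · intro F _ m n p C Ω hC
    exact lower C Ω hC
  · intro F _ _ _ m n p C hC s hs
    exact upper C hC s hs
  · intro F _ m n p C Ω out hC
    exact ⟨tradeoff C Ω out hC, foreign_tradeoff C Ω out hC⟩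
  · intro F _ m C out K κ hm hK hκ hC hX
    refine ⟨?_, (Circuit.nonscalarCount_le_mulCount C).trans (Circuit.mulCount_le_size C)⟩
    have h := foreign_tradeoff C univ out fun z _ => hC z
    rw [card_univ, Fintype.card_prod, Fintype.card_fin] at h
    exact power_form hm _ _ K κ hK hκ h hX

end Pool.Agent.Results.MP_e72dc0_lc.Cancellations
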