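import Pool.Agent.L0h35.RuFin

set_option autoImplicit false

/-!
# Matrix multiplication with few linear forms or with little reuse of the products

Circuits (`Circuit`, `Circuit.poly`, `Circuit.nonscalarCount`) are defined in
`Pool.Agent.H522R2.Circuit`; the variables `Vars m` and the entries `entry F m i j` of the product
of two generic `m × m` matrices in `Pool.Agent.H88R3.MM.Circ`.

The straightforward algorithm multiplies entries of the two matrices and adds up the products. A
faster algorithm multiplies linear forms in the entries and uses the products and their sums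
several times. We show that an algorithm which does not do enough of the first or not enough of
the second thing needs at least `c m³ / log m` products, for arithmetic circuits over all fields:
the number of the linear forms in the entries of one of the matrices has to be at least
`(3 - ε) m²` (not counting multiples of entries and of forms computed before), and the reuse of
the nodes with a quadratic part, the sum of fan-out minus one, has to be at least `(2 - ε) m²`.

The proof is by sparse systems of linear equations with large distance
(`Pool.Agent.W946.Sz.rounds`), for the computation of the linear forms and for the transposed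
computation, which determines the coefficients of the products in the linear combinations of the
outputs; nodes which are tested by many products are removed first.
-/

namespace Pool.Agent.Results.MP_e72dc0_lc.FewFormsOrReuse

open Pool.Agent.H88R3.MM Pool.Agent.H522R2

universe u

/-- the circuit has the entries of the product of two generic `m × m` matrices among the
polynomials which it computes -/
def Computes {F : Type*} [Field F] {m : ℕ} (C : Circuit F (Vars m)) : Prop :=
  ∀ i j, ∃ k : Fin C.nodes, C.poly k = entry F m i j

/-- the part of the polynomial computed at `v` which is linear in the entries of the first matrix: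
the coefficients of these variables -/
noncomputable def linA {F : Type*} [Field F] {m : ℕ} (C : Circuit F (Vars m))
    (v : Fin C.nodes) : Fin m × Fin m → F :=
  fun p => (C.poly v).coeff (Finsupp.single (Sum.inl p) 1)

/-- the part of the polynomial computed at `v` which is linear in the entries of the second
matrix: the coefficients of these variables -/
noncomputable def linB {F : Type*} [Field F] {m : ℕ} (C : Circuit F (Vars m))
    (v : Fin C.nodes) : Fin m × Fin m → F :=
  fun p => (C.poly v).coeff (Finsupp.single (Sum.inr p) 1)

/-- the number of vectors in the list `f` which are neither multiples of unit vectors nor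
multiples of earlier vectors in the list -/
noncomputable def newForms {F V : Type*} [Field F] [DecidableEq V] {n : ℕ} (f : Fin n → V → F) :
    ℕ :=
  Nat.card {v : Fin n //
    (∀ (x : V) (a : F), f v ≠ a • Pi.single x 1) ∧ ∀ u < v, ∀ a : F, f v ≠ a • f u}

/-- the number of gates which have the node `v` as an input -/
noncomputable def fanout {F V : Type*} (C : Circuit F V) (v : Fin C.nodes) : ℕ :=
  Nat.card {u : Fin C.nodes // ∃ i j : Fin (u : ℕ),
    (C.gate u = Gate.add i j ∨ C.gate u = Gate.mul i j) ∧ (v = C.up u i ∨ v = C.up u j)}

open Classical in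
/-- the reuse: the sum of (fan-out minus one) over the nodes `v` which are used by gates and at
which the polynomial has a nonzero homogeneous component of degree two -/
noncomputable def reuse {F V : Type*} [Field F] (C : Circuit F V) : ℕ :=
  ∑ v ∈ Finset.univ.filter (fun v : Fin C.nodes =>
    MvPolynomial.homogeneousComponent 2 (C.poly v) ≠ 0), (fanout C v - 1)

open Pool.Agent.L0h35.Hg in
theorem card_LL_eq {F V : Type*} [Field F] [DecidableEq V] [Nonempty V] [Fintype V] {n : ℕ}
    (f : Fin n → V → F) : (LL f).card = newForms f := by
  classical
  unfold newForms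
  rw [Nat.card_eq_fintype_card, Fintype.card_subtype]
  congr 1
  ext v
  rw [mem_LL, Finset.mem_filter]
  refine ⟨fun h => ⟨Finset.mem_univ _, h.2⟩, fun h => ⟨fun h0 => ?_, h.2⟩⟩
  refine h.2.1 (Classical.arbitrary V) 0 ?_
  rw [h0, zero_smul]

theorem card_inputs {F V : Type*} [Field F] {C : Circuit F V} (v : Fin C.nodes)
    [DecidablePred fun u => Pool.Agent.L0h35.Hg.IsInput C u v] :
    (Finset.univ.filter fun u => Pool.Agent.L0h35.Hg.IsInput C u v).card = fanout C v := by
  unfold fanout
  rw [← Fintype.card_subtype, ← Nat.card_eq_fintype_card]
  rfl

theorem le_reuse {F V : Type*} [Field F] {C : Circuit F V} (S : Finset (Fin C.nodes))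
    (hS : ∀ v ∈ S, MvPolynomial.homogeneousComponent 2 (C.poly v) ≠ 0) :
    ∑ v ∈ S, (fanout C v - 1) ≤ reuse C := by
  classical
  unfold reuse
  refine Finset.sum_le_sum_of_subset fun v hv => ?_
  rw [Finset.mem_filter]
  exact ⟨Finset.mem_univ _, hS v hv⟩

/-- Circuits with fewer than `(3 - ε) m ^ 2` new linear forms in the entries of the first or of
the second matrix, or with reuse less than `(2 - ε) m ^ 2`, need at least `c m ^ 3 / log m`
nonscalar multiplications to multiply two `m × m` matrices. -/
theorem result : ∀ ε : ℝ, 0 < ε → ∃ c : ℝ, 0 < c ∧ ∃ m₀ : ℕ,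
    ∀ (F : Type u) [Field F] (m : ℕ) (C : Circuit F (Vars m)), m₀ ≤ m → Computes C →
      ((newForms (linA C) : ℝ) < (3 - ε) * (m : ℝ) ^ 2 ∨
        (newForms (linB C) : ℝ) < (3 - ε) * (m : ℝ) ^ 2 ∨
        (reuse C : ℝ) < (2 - ε) * (m : ℝ) ^ 2) →
      c * (m : ℝ) ^ 3 / Real.log m ≤ C.nonscalarCount := by
  classical
  intro ε hε
  obtain ⟨c, m₀, hc, hm₀, h⟩ := Pool.Agent.L0h35.Hg.main2.{u} ε hε
  refine ⟨c, hc, m₀, fun F _ m C hm hC hor => ?_⟩
  by_contra hcon
  have hmpos : 0 < m := lt_of_lt_of_le hm₀ hm
  have : Nonempty (Fin m × Fin m) := ⟨(⟨0, hmpos⟩, ⟨0, hmpos⟩)⟩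
  obtain ⟨h1, h2, h3⟩ := h F m C hm hC (le_of_lt (not_le.1 hcon))
  have hA : Pool.Agent.L0h35.Hg.rlin C Sum.inl = linA C := by
    funext v p
    exact Pool.Agent.L0h35.Hg.D1_eq_coeff _ _
  have hB : Pool.Agent.L0h35.Hg.rlin C Sum.inr = linB C := by
    funext v p
    exact Pool.Agent.L0h35.Hg.D1_eq_coeff _ _
  rw [hA, card_LL_eq] at h1
  rw [hB, card_LL_eq] at h2
  rcases hor with h4 | h4 | h4
  · exact absurd h1 (not_le.2 h4)
  · exact absurd h2 (not_le.2 h4)
  · simp only [card_inputs] at h3
    refine absurd (h3.trans (Nat.cast_le.2 (le_reuse _ fun v hv h7 => ?_))) (not_le.2 h4)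
    refine (Finset.mem_filter.1 hv).2 ?_
    funext x y
    exact Pool.Agent.L0h35.Hg.D2_comp h7 x y

end Pool.Agent.Results.MP_e72dc0_lc.FewFormsOrReuse
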