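import Pool.Agent.L0h35.HgFin

set_option autoImplicit false

/-!
# Homogeneous circuits for matrix multiplication have `(14 - o(1)) m²` gates

Circuits (`Circuit`, `Circuit.poly`, `Circuit.size`) are defined in `Pool.Agent.H522R2.Circuit`;
the variables `Vars m` and the entries `entry F m i j` of the product of two generic `m × m`
matrices in `Pool.Agent.H88R3.MM.Circ`; `addCount` is the number of `+` gates.

A node mixes degrees if the polynomial which it computes has two nonzero homogeneous components
among those of degree 0, 1 and 2. Homogeneous circuits do not mix degrees; in particular this is
the case for bilinear algorithms, whose nodes compute constants, linear forms in the entries of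
one of the matrices, and bilinear forms.

The proof counts three kinds of gates.

* The linear forms which are computed are a code of dimension `2 m²` in which a nonzero vector
  is detected by many products, and the `+` gates are parity checks of weight three. Sparse
  systems of this kind have at least three times as many equations as free unknowns, up to
  lower order terms (`Pool.Agent.W946.Sz.rounds`): this gives `6 m²` sums of linear forms.
* The same is applied to the transposed computation: the coefficients of the nodes in a
  combination of the outputs are computed backwards by a linear program in `m²` variables, a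
  node which is used `f` times costs `f - 1` steps, and a combination of the outputs which is not
  zero contains many products. So there are at least `N + 2 m²` sums of quadratic forms, where
  `N` is the number of products of linear forms.
* `N` is at least `3 m²`, up to lower order terms (Landsberg; for quadratic algorithms over
  arbitrary fields `Pool.Agent.W946.Kos.core`).
-/

namespace Pool.Agent.Results.MP_e72dc0_lc.HomogeneousCircuits

open Pool.Agent.H88R3.MM Pool.Agent.H522R2 Pool.Agent.L0h35.Hg

universe u

/-- the circuit has the entries of the product of two generic `m × m` matrices among the
polynomials which it computes -/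
def Computes {F : Type*} [Field F] {m : ℕ} (C : Circuit F (Vars m)) : Prop :=
  ∀ i j, ∃ k : Fin C.nodes, C.poly k = entry F m i j

/-- every node computes a homogeneous polynomial -/
def Homogeneous {F V : Type*} [Field F] (C : Circuit F V) : Prop :=
  ∀ v : Fin C.nodes, ∃ d : ℕ, (C.poly v).IsHomogeneous d

/-- for every node at most one of the homogeneous components of degree 0, 1 and 2 of the
polynomial computed there is not zero -/
def NoMixing {F V : Type*} [Field F] (C : Circuit F V) : Prop :=
  ∀ v : Fin C.nodes, ∃ d : ℕ, ∀ e ≤ 2, e ≠ d →
    MvPolynomial.homogeneousComponent e (C.poly v) = 0

/-- Homogeneous circuits do not mix degrees; and a circuit over a field which does not mix degrees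
and computes the product of two generic `m × m` matrices has at least `(14 - δ) m ^ 2` gates, at
least `(11 - δ) m ^ 2` of which are `+` gates, if `m ≥ m₀(δ)`. -/
theorem result :
    (∀ (F : Type u) [Field F] (V : Type) (C : Circuit F V), Homogeneous C → NoMixing C) ∧
    ∀ δ : ℝ, 0 < δ → ∃ m₀ : ℕ, ∀ (F : Type u) [Field F] (m : ℕ) (C : Circuit F (Vars m)),
      m₀ ≤ m → NoMixing C → Computes C →
        (14 - δ) * (m : ℝ) ^ 2 ≤ C.size ∧ (11 - δ) * (m : ℝ) ^ 2 ≤ addCount C := by
  refine ⟨fun F _ V C h v => ?_, fun δ hδ => ?_⟩
  · obtain ⟨d, hd⟩ := h v
    exact pure_of_hom hd
  · obtain ⟨m₀, h⟩ := main.{u} δ hδ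
    exact ⟨m₀, fun F _ m C hm hP hC => (h F m C hm hP hC).symm⟩

end Pool.Agent.Results.MP_e72dc0_lc.HomogeneousCircuits
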