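import Pool.Agent.L0h35.GTAbel
import Pool.Agent.N726.BG.Main
import Pool.Agent.L0h35.SeFin
import Pool.Agent.L0h35.SeRec
import Pool.Agent.L0h35.SePair
import Pool.Agent.L0h35.SePow
import Pool.Agent.L0h35.SePow3
import Pool.Agent.L0h35.SeTwo
import Pool.Agent.L0h35.SeTwo3
import Pool.Agent.L0h35.SeEls
import Pool.Agent.L0h35.SeEls3
import Pool.Agent.L0h35.SeSol
import Pool.Agent.L0h35.SeDlp
import Pool.Agent.L0h35.SeGd3

set_option autoImplicit false

/-!
# Groups of large sectional rank cannot prove `ω = 2`

In the group-theoretic approach (Cohn and Umans; Cohn, Kleinberg, Szegedy and Umans) to upper bounds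
for the exponent `ω` of matrix multiplication one looks for a finite group `G` and for sets
`A i, B i, C i ⊆ G` with the simultaneous triple product property (`STPP`, defined in
`Pool.Agent.L0h35.GTStpp`).  Then `∑ i (|A i| |B i| |C i|) ^ (ω / 3) ≤ ∑ k (d k) ^ ω`, where the
`d k` are the degrees of the irreducible representations of `G`; so `ω < τ` follows if
`∑ i (|A i| |B i| |C i|) ^ (τ / 3) > ∑ k (d k) ^ τ`.

`Saves G η` (defined in `Pool.Agent.L0h35.SeFin`) says that for all such families of sets and all
`τ ≥ 2` the sum on the left is at most `|G| ^ (τ / 2) exp (-η)`.  Then `G` cannot show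
`ω < 2 + 2 η / log k(G)`, where `k(G) ≤ |G|` is the number of conjugacy classes of `G` (part 4), and if
`log k(G) ≤ 3 η` then `G` gives no bound `ω < 3` at all (part 4 with `τ ≤ 3`).

The main result (part 1): if the finite group `G` has a section `X / Y` which is an elementary abelian
`p`-group of rank `r`, for some prime `p`, then `Saves G (r / 320000)`.  So a family of finite groups
that proves `ω = 2` in this way must have sectional rank `o (log k(G))`, in particular `o (log |G|)`.

Consequences: sections `X / Y` of exponent dividing `e` which are solvable of derived length at most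
`ℓ` save `log |X / Y| / (320000 e ^ 2 ℓ)` (part 2), so they have order `|G| ^ o(1)` in such a family,
for fixed `e` and `ℓ`.  All sections of exponent dividing `e` and order less than `2 ^ 2 ^ ℓ` save
`log |X / Y| / (320000 e ^ 3 ℓ)` (part 3); in particular (with `X = G`, `Y = 1`) a group of exponent
dividing `e` cannot show `ω < 2 + ε` unless `log log |G|` is at least `c(e) / ε`.

The proof.  The group theory (compare Thompson 1969 and Laffey 1974 on large subgroups of class two in
`p`-groups with large abelian sections): let `V` be a normal subgroup of the finite `p`-group `S`, with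
elementary abelian quotient (for `p = 2`: abelian of exponent four).  Then `S` has a subgroup of class
at most two and exponent `p` (for `p = 2`: exponent eight) and of order at least `|S / V|`.  The large
subgroup of class two is found by a duality argument: if `[V, S] ≠ 1`, let `N` be a normal subgroup of
index `p` in `[V, S]`; then the index of `C_S(V / N)` is at most that of the subgroup of the elements of
`V` that are central modulo `N`, which contains all commutators of elements of `C_S(V / N)`; one
replaces `S` and `V` by these two subgroups.  For groups of class two the powers of the augmentation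
ideal have small codimension and vanishing cube; and by the pivot theorem of the starting files a
subgroup is enough.
-/

namespace Pool.Agent.Results.MP_e72dc0_lc.SectionalRank

open Finset Module Pool.Agent.L0h35.GT Pool.Agent.L0h35.Sv Pool.Agent.L0h35.Se

theorem els3 : StEls3 :=
  stEls3_of (stEls_of (stPow_of (stRec_of stPair)) stTwo) (stPow3_of (stRec_of stPair))
    (stTwo3_of stGd3)

theorem result :
    -- 1. elementary abelian sections of rank `r`
    (∀ (p r : ℕ) (G : Type) [Group G] [Finite G] (X Y : Subgroup G), p.Prime → Y ≤ X →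
      ⁅X, X⁆ ≤ Y → (∀ x ∈ X, x ^ p ∈ Y) → Nat.card X = p ^ r * Nat.card Y →
      Saves G ((r : ℝ) / 320000)) ∧
    -- 2. sections of bounded exponent and bounded derived length
    (∀ (e ℓ : ℕ) (G : Type) [Group G] [Finite G] (X Y : Subgroup G), 0 < e → 0 < ℓ → Y ≤ X →
      (Y.subgroupOf X).Normal → (∀ x ∈ X, x ^ e ∈ Y) → ds X ℓ ≤ Y →
      Saves G (Real.log ((Nat.card X : ℝ) / Nat.card Y) / (320000 * (e : ℝ) ^ 2 * ℓ))) ∧
    -- 3. sections of bounded exponent
    (∀ (e ℓ : ℕ) (G : Type) [Group G] [Finite G] (X Y : Subgroup G), 0 < e → 0 < ℓ → Y ≤ X →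
      (Y.subgroupOf X).Normal → (∀ x ∈ X, x ^ e ∈ Y) → Nat.card X < 2 ^ 2 ^ ℓ * Nat.card Y →
      Saves G (Real.log ((Nat.card X : ℝ) / Nat.card Y) / (320000 * (e : ℝ) ^ 3 * ℓ))) ∧
    -- 4. the consequence for the group-theoretic approach
    (∀ (G : Type) [Group G] [Finite G] (η : ℝ), Saves G η →
      ∀ (I : Type) [Fintype I] (A B C : I → Finset G), STPP A B C → ∀ τ : ℝ, 2 ≤ τ →
        (1 - 2 / τ) * Real.log (Nat.card (ConjClasses G)) ≤ η →
        ∀ (n : ℕ) (d : Fin n → ℕ),
          Nonempty (MonoidAlgebra ℂ G ≃ₐ[ℂ] ((k : Fin n) → Matrix (Fin (d k)) (Fin (d k)) ℂ)) →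
          ∑ i, ((A i).card * (B i).card * (C i).card : ℝ) ^ (τ / 3) ≤ ∑ k, (d k : ℝ) ^ τ) ∧
    -- 5. abelian normal subgroups: a better constant
    (∀ (G : Type) [Group G] [Finite G] (N : Subgroup G), N.Normal →
      (∀ x ∈ N, ∀ y ∈ N, x * y = y * x) → ∀ e : ℕ, 2 ≤ e → (∀ x ∈ N, x ^ e = 1) →
      Saves G (Real.log (Nat.card N) / (18 * Real.log e))) := by
  refine ⟨?_, ?_, ?_, ?_, ?_⟩
  · intro p r G _ _ X Y hp hYX hXX hpow hcard I _ A B C hS τ hτ
    have : Fact p.Prime := ⟨hp⟩
    have h := els3 p r G X Y hYX hXX hpow hcard I A B C hS τ hτ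
    rwa [neg_div] at h
  · intro e ℓ G _ _ X Y he hℓ hYX hn hexp hds
    exact saves_solvable els3 stSol G X Y hYX hn e ℓ he hℓ hexp hds
  · intro e ℓ G _ _ X Y he hℓ hYX hn hexp hcl
    exact saves_exponent els3 stSol stDlp G X Y hYX hn e ℓ he hℓ hexp hcl
  · intro G _ _ η h I _ A B C hS τ hτ hτ' n d hΦ
    have h2 := h I A B C hS 2 le_rfl
    have hk : (0 : ℝ) < Nat.card (ConjClasses G) := by
      exact_mod_cast (Nat.card_pos (α := ConjClasses G))
    have h3 := N726.BG.classes_bound (G := G) (Y := Real.exp η) (Real.exp_pos η) (I := I) (A := A)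
      (B := B) (C := C) (by
        have h4 : (Nat.card G : ℝ) = (Nat.card G : ℝ) * Real.exp (-η) * Real.exp η := by
          rw [mul_assoc, ← Real.exp_add, neg_add_cancel, Real.exp_zero, mul_one]
        rw [h4]
        refine mul_le_mul_of_nonneg_right ?_ (Real.exp_pos η).le
        rw [div_self (two_ne_zero' ℝ), Real.rpow_one] at h2
        refine le_trans (le_of_eq ?_) h2
        refine sum_congr rfl fun i _ => ?_
        push_cast
        rfl) hΦ hτ (by
        rw [Real.rpow_def_of_pos hk]
        apply Real.exp_le_exp.2
        have h5 : (τ - 2) / τ = 1 - 2 / τ := by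
          have : τ ≠ 0 := by linarith
          field_simp
        rw [h5, mul_comm]
        exact hτ')
    refine le_trans (le_of_eq ?_) h3
    refine sum_congr rfl fun i _ => ?_
    push_cast
    rfl
  · intro G _ _ N hN hcomm e he hexp I _ A B C hS τ hτ
    have h := abelian_bound N hcomm he hexp hS hτ
    have hN0 : (0 : ℝ) < Nat.card N := by exact_mod_cast (Nat.card_pos (α := N))
    refine h.trans (le_of_eq ?_)
    rw [Real.rpow_def_of_pos hN0, Real.exp_neg, div_eq_mul_inv]
    congr 2
    ring_nf

end Pool.Agent.Results.MP_e72dc0_lc.SectionalRank
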